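import Mathlib
import Pool.Agent.X28.Wolf.Total
import Pool.Agent.X28.Wolf.Small
import Pool.Agent.X28.Wolf.Twin

/-!
Wolf's formula for the generalised Brun constants is false for `h = 6`: the sum over the pairs of
consecutive primes with difference 6 is larger than `(4 / 3) C_twin`.
-/

set_option autoImplicit false

namespace Pool.Agent.Results.MP_a19cb6_nt.FormulaFailsAtSix

/-- `(p, p + h)` is an `h`-gap pair: `p` and `p + h` are consecutive primes -/
def IsGapPair (h p : ℕ) : Prop :=
  p.Prime ∧ (p + h).Prime ∧ ∀ m : ℕ, p < m → m < p + h → ¬ m.Prime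

open Classical in
/-- the generalised Brun constant of `h`: the sum of `1 / p + 1 / (p + h)` over all `h`-gap pairs
`(p, p + h)`, as an element of `[0, ∞]` -/
noncomputable def brun (h : ℕ) : ENNReal :=
  ∑' p : ℕ, if IsGapPair h p then ENNReal.ofReal (1 / (p : ℝ) + 1 / ((p : ℝ) + (h : ℝ))) else 0

/-- the twin prime constant, the product over the odd primes `p` of `1 - 1 / (p - 1) ^ 2` -/
noncomputable def twinConst : ℝ :=
  ∏' p : {p : ℕ // p.Prime ∧ 2 < p}, (1 - 1 / (((p : ℕ) : ℝ) - 1) ^ 2)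

/-- the right-hand side of Wolf's formula -/
noncomputable def wolf (h : ℕ) : ℝ :=
  4 * twinConst / h * ∏ p ∈ h.primeFactors.filter (fun p => 2 < p), ((p : ℝ) - 1) / ((p : ℝ) - 2)

theorem wolf_six : wolf 6 = 4 / 3 * twinConst := by
  have h : Nat.primeFactors 6 = {2, 3} := by
    rw [show (6 : ℕ) = 2 * 3 by norm_num, Nat.primeFactors_mul (by norm_num) (by norm_num),
      Nat.Prime.primeFactors Nat.prime_two, Nat.Prime.primeFactors Nat.prime_three]
    rfl
  have h2 : (Nat.primeFactors 6).filter (fun p => 2 < p) = {3} := by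
    rw [h]
    decide
  unfold wolf
  rw [h2, Finset.prod_singleton]
  push_cast
  ring

theorem twinConst_eq : twinConst =
    ∏' p : {p : ℕ // p.Prime ∧ 2 < p}, Pool.Agent.X28.Wolf.tf p := rfl

theorem brun_ge (n : ℕ) : ENNReal.ofReal (Pool.Agent.X28.Wolf.S 0 n) ≤ brun 6 := by
  classical
  unfold brun Pool.Agent.X28.Wolf.S
  rw [ENNReal.ofReal_sum_of_nonneg (fun p _ => Pool.Agent.X28.Wolf.F_nonneg p)]
  refine le_trans (le_of_eq ?_) (ENNReal.sum_le_tsum (Finset.Ico 0 n))
  apply Finset.sum_congr rfl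
  intro p _
  unfold Pool.Agent.X28.Wolf.F
  by_cases h : IsGapPair 6 p
  · have h' : Pool.Agent.X28.Wolf.IsGap 6 p := h
    rw [if_pos h, if_pos h']
    norm_num
  · have h' : ¬ Pool.Agent.X28.Wolf.IsGap 6 p := h
    rw [if_neg h, if_neg h', ENNReal.ofReal_zero]

/-- Wolf's formula fails for `h = 6`, where the Brun constant is larger than the right-hand side;
so the formula does not hold for all even `h ≥ 6`. -/
theorem result : ENNReal.ofReal (wolf 6) < brun 6 ∧
    ¬ ∀ h : ℕ, Even h → 6 ≤ h → brun h = ENNReal.ofReal (wolf h) := by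
  have h1 : ENNReal.ofReal (wolf 6) < brun 6 := by
    refine lt_of_lt_of_le ?_ (brun_ge (299556913))
    have h2 : wolf 6 ≤ 8802396 / 10000000 := by
      rw [wolf_six, twinConst_eq]
      exact Pool.Agent.X28.Wolf.twin_le
    have h3 := Pool.Agent.X28.Wolf.t1003
    have h4 := Pool.Agent.X28.Wolf.S_small
    have h5 := Pool.Agent.X28.Wolf.S_add (show 0 ≤ 408 by norm_num)
      (show 408 ≤ 299556913 by norm_num)
    push_cast at h3
    have h6 : wolf 6 < Pool.Agent.X28.Wolf.S 0 (299556913) := by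
      rw [← h5]
      linarith
    exact (ENNReal.ofReal_lt_ofReal_iff_of_nonneg (by
      rw [wolf_six, twinConst_eq]
      have : 0 ≤ ∏' p : {p : ℕ // p.Prime ∧ 2 < p}, Pool.Agent.X28.Wolf.tf p :=
        Pool.Agent.X28.Wolf.tprod_nonneg
      linarith)).2 h6
  refine ⟨h1, fun h => ?_⟩
  have h2 := h 6 (by decide) le_rfl
  rw [h2] at h1
  exact lt_irrefl _ h1

end Pool.Agent.Results.MP_a19cb6_nt.FormulaFailsAtSix
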